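import Pool.Agent.Helper36.CV.StmtsO

/-!
# O7: a periodic potential, lower bound outside the bands

Periodic boundary conditions: an eigenvalue of the finite periodic operator has a monodromy matrix
with trace of modulus at most 2.
-/

set_option autoImplicit false
set_option linter.unusedSectionVars false

namespace Pool.Agent.Helper36.CV

open Filter Topology

noncomputable section

/-! ### transfer matrices -/

theorem o7_det_Pr (w : ℤ → ℝ) (E : ℝ) (a : ℤ) (n : ℕ) : (Pr w E a n).det = 1 := by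
  induction n with
  | zero => simp [Pr]
  | succ n ih =>
    simp only [Pr, Matrix.det_mul, ih, mul_one]
    simp [Tr, Matrix.det_fin_two]

theorem o7_Pr_shift (w : ℤ → ℝ) (E : ℝ) (p : ℕ) (hw : ∀ k, w (k + p) = w k) (m : ℤ) (a : ℤ)
    (n : ℕ) : Pr w E (a + m * p) n = Pr w E a n := by
  have hw' : ∀ (m k : ℤ), w (k + m * p) = w k := by
    intro m
    induction m using Int.induction_on with
    | zero => intro k; simp
    | succ i ih =>
      intro k
      have h1 : k + ((i : ℤ) + 1) * p = (k + (i : ℤ) * p) + p := by ring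
      rw [h1, hw, ih]
    | pred i ih =>
      intro k
      have h1 : k + (-(i : ℤ)) * p = (k + (-(i : ℤ) - 1) * p) + p := by ring
      rw [← ih k, h1, hw]
  induction n with
  | zero => rfl
  | succ n ih =>
    simp only [Pr, ih]
    have h1 : a + m * p + n + 1 = (a + n + 1) + m * p := by ring
    rw [h1, hw']

theorem o7_step (w : ℤ → ℝ) (E : ℝ) (v : ℤ → ℂ)
    (hv : ∀ k, v (k + 1) + v (k - 1) + (w k : ℂ) * v k = (E : ℂ) * v k) (a : ℤ) (n : ℕ) :
    v (a + n + 1) = (Pr w E a n 0 0 : ℂ) * v (a + 1) + (Pr w E a n 0 1 : ℂ) * v a ∧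
    v (a + n) = (Pr w E a n 1 0 : ℂ) * v (a + 1) + (Pr w E a n 1 1 : ℂ) * v a := by
  induction n with
  | zero => simp [Pr]
  | succ n ih =>
    obtain ⟨h1, h2⟩ := ih
    have h3 := hv (a + n + 1)
    have e1 : a + (n : ℤ) + 1 - 1 = a + n := by ring
    rw [e1] at h3
    have e2 : a + ((n + 1 : ℕ) : ℤ) + 1 = a + n + 1 + 1 := by push_cast; ring
    have e3 : a + ((n + 1 : ℕ) : ℤ) = a + n + 1 := by push_cast; ring
    rw [e2, e3]
    constructor
    · simp only [Pr, Tr, Matrix.mul_apply, Fin.sum_univ_two, Matrix.of_apply, Matrix.cons_val',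
        Matrix.cons_val_zero, Matrix.cons_val_one, Matrix.empty_val',
        Matrix.cons_val_fin_one]
      push_cast
      linear_combination h3 + ((E : ℂ) - (w (a + n + 1) : ℂ)) * h1 - h2
    · simp only [Pr, Tr, Matrix.mul_apply, Fin.sum_univ_two, Matrix.of_apply, Matrix.cons_val',
        Matrix.cons_val_zero, Matrix.cons_val_one, Matrix.empty_val',
        Matrix.cons_val_fin_one]
      push_cast
      linear_combination h1

theorem o7_three (w : ℤ → ℝ) (E : ℝ) (p : ℕ) (hw : ∀ k, w (k + p) = w k) (v : ℤ → ℂ)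
    (hv : ∀ k, v (k + 1) + v (k - 1) + (w k : ℂ) * v k = (E : ℂ) * v k) (m : ℤ) :
    (v ((m + 1) * p + 1) + v ((m - 1) * p + 1) = ((Pr w E 0 p).trace : ℂ) * v (m * p + 1)) ∧
    (v ((m + 1) * p) + v ((m - 1) * p) = ((Pr w E 0 p).trace : ℂ) * v (m * p)) := by
  obtain ⟨h1, h2⟩ := o7_step w E v hv (m * p) p
  obtain ⟨h3, h4⟩ := o7_step w E v hv ((m - 1) * p) p
  have hs := o7_Pr_shift w E p hw m 0 p
  have hs' := o7_Pr_shift w E p hw (m - 1) 0 p
  rw [zero_add] at hs hs'
  rw [hs] at h1 h2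
  rw [hs'] at h3 h4
  have hd := o7_det_Pr w E 0 p
  rw [Matrix.det_fin_two] at hd
  have hdc : (Pr w E 0 p 0 0 : ℂ) * (Pr w E 0 p 1 1 : ℂ) -
      (Pr w E 0 p 0 1 : ℂ) * (Pr w E 0 p 1 0 : ℂ) = 1 := by exact_mod_cast hd
  have e1 : m * (p : ℤ) + p + 1 = (m + 1) * p + 1 := by ring
  have e2 : m * (p : ℤ) + p = (m + 1) * p := by ring
  have e3 : (m - 1) * (p : ℤ) + p + 1 = m * p + 1 := by ring
  have e4 : (m - 1) * (p : ℤ) + p = m * p := by ring
  rw [e1] at h1
  rw [e2] at h2
  rw [e3] at h3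
  rw [e4] at h4
  rw [Matrix.trace_fin_two]
  push_cast
  set α := (Pr w E 0 p 0 0 : ℂ)
  set β := (Pr w E 0 p 0 1 : ℂ)
  set γ := (Pr w E 0 p 1 0 : ℂ)
  set δ := (Pr w E 0 p 1 1 : ℂ)
  set x0 := v ((m - 1) * p + 1)
  set x1 := v ((m - 1) * p)
  constructor
  · linear_combination h1 - δ * h3 + β * h4 - x0 * hdc
  · linear_combination h2 + γ * h3 - α * h4 - x1 * hdc

/-- the maximum principle -/
theorem o7_max {J : Type} [Finite J] (f : J → ℂ) (c : ℤ → J) (t : ℝ) (ht : 2 < |t|)
    (h : ∀ m : ℤ, f (c (m + 1)) + f (c (m - 1)) = (t : ℂ) * f (c m)) (m : ℤ) : f (c m) = 0 := by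
  obtain ⟨j, ⟨m₀, rfl⟩, hj⟩ := Set.exists_max_image (Set.range c) (fun j => ‖f j‖)
    (Set.toFinite _) ⟨c 0, 0, rfl⟩
  have h1 := h m₀
  have h2 : |t| * ‖f (c m₀)‖ ≤ ‖f (c m₀)‖ + ‖f (c m₀)‖ := by
    calc |t| * ‖f (c m₀)‖ = ‖(t : ℂ) * f (c m₀)‖ := by
          rw [norm_mul, Complex.norm_real, Real.norm_eq_abs]
      _ = ‖f (c (m₀ + 1)) + f (c (m₀ - 1))‖ := by rw [h1]
      _ ≤ ‖f (c (m₀ + 1))‖ + ‖f (c (m₀ - 1))‖ := norm_add_le _ _
      _ ≤ _ := add_le_add (hj _ ⟨_, rfl⟩) (hj _ ⟨_, rfl⟩)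
  have h3 : ‖f (c m₀)‖ = 0 := by
    have := norm_nonneg (f (c m₀))
    by_contra hne
    have hpos : 0 < ‖f (c m₀)‖ := lt_of_le_of_ne this (Ne.symm hne)
    nlinarith
  have h4 := hj (c m) ⟨m, rfl⟩
  simp only [h3] at h4
  exact norm_le_zero_iff.1 h4

/-! ### the finite operator -/

section

variable (N : ℕ) [NeZero N]

/-- the potential on the cycle -/
def o7_wN (w : ℤ → ℝ) (c : ℕ) (j : ZMod N) : ℝ := w ((j.val : ℤ) - c)

theorem o7_wN_cast (w : ℤ → ℝ) (c p L : ℕ) (hN : N = p * L) (hw : ∀ k, w (k + p) = w k) (k : ℤ) :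
    o7_wN N w c ((k + c : ℤ) : ZMod N) = w k := by
  have hw' : ∀ (m k : ℤ), w (k + m * p) = w k := by
    intro m
    induction m using Int.induction_on with
    | zero => intro k; simp
    | succ i ih =>
      intro k
      have h1 : k + ((i : ℤ) + 1) * p = (k + (i : ℤ) * p) + p := by ring
      rw [h1, hw, ih]
    | pred i ih =>
      intro k
      have h1 : k + (-(i : ℤ)) * p = (k + (-(i : ℤ) - 1) * p) + p := by ring
      rw [← ih k, h1, hw]
  unfold o7_wN
  have h1 : ((((k + c : ℤ) : ZMod N).val : ℕ) : ℤ) = (k + c) % N := ZMod.val_intCast _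
  rw [h1, Int.emod_def]
  have h2 : k + (c : ℤ) - N * ((k + c) / N) - c = k + (-(L * ((k + c) / N))) * p := by
    have : (N : ℤ) = p * L := by exact_mod_cast hN
    generalize (k + (c : ℤ)) / N = q
    rw [this]
    ring
  rw [h2, hw']

/-- the periodic operator -/
def o7_T (W : ZMod N → ℝ) : EuclideanSpace ℂ (ZMod N) →ₗ[ℂ] EuclideanSpace ℂ (ZMod N) where
  toFun f := WithLp.toLp 2 (fun j => f (j + 1) + f (j - 1) + (W j : ℂ) * f j)
  map_add' f g := by
    ext j
    simp only [PiLp.add_apply]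
    ring
  map_smul' c f := by
    ext j
    simp only [PiLp.smul_apply, smul_eq_mul, RingHom.id_apply]
    ring

theorem o7_T_apply (W : ZMod N → ℝ) (f : EuclideanSpace ℂ (ZMod N)) (j : ZMod N) :
    o7_T N W f j = f (j + 1) + f (j - 1) + (W j : ℂ) * f j := rfl

theorem o7_T_symm (W : ZMod N → ℝ) : (o7_T N W).IsSymmetric := by
  intro f g
  simp only [PiLp.inner_apply, o7_T_apply, RCLike.inner_apply, map_add, map_mul,
    Complex.conj_ofReal]
  have h1 : ∑ j : ZMod N, g j * (starRingEnd ℂ) (f (j + 1)) =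
      ∑ j : ZMod N, g (j - 1) * (starRingEnd ℂ) (f j) := by
    rw [← Equiv.sum_comp (Equiv.addRight (1 : ZMod N))
      (fun j => g (j - 1) * (starRingEnd ℂ) (f j))]
    refine Finset.sum_congr rfl fun j _ => ?_
    simp
  have h2 : ∑ j : ZMod N, g j * (starRingEnd ℂ) (f (j - 1)) =
      ∑ j : ZMod N, g (j + 1) * (starRingEnd ℂ) (f j) := by
    rw [← Equiv.sum_comp (Equiv.addRight (1 : ZMod N))
      (fun j => g j * (starRingEnd ℂ) (f (j - 1)))]
    refine Finset.sum_congr rfl fun j _ => ?_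
    simp
  calc ∑ j : ZMod N, g j * ((starRingEnd ℂ) (f (j + 1)) + (starRingEnd ℂ) (f (j - 1)) +
        (W j : ℂ) * (starRingEnd ℂ) (f j))
      = ∑ j : ZMod N, g j * (starRingEnd ℂ) (f (j + 1)) +
        ∑ j : ZMod N, g j * (starRingEnd ℂ) (f (j - 1)) +
        ∑ j : ZMod N, (W j : ℂ) * g j * (starRingEnd ℂ) (f j) := by
        rw [← Finset.sum_add_distrib, ← Finset.sum_add_distrib]
        refine Finset.sum_congr rfl fun j _ => ?_
        ring
    _ = ∑ j : ZMod N, g (j - 1) * (starRingEnd ℂ) (f j) +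
        ∑ j : ZMod N, g (j + 1) * (starRingEnd ℂ) (f j) +
        ∑ j : ZMod N, (W j : ℂ) * g j * (starRingEnd ℂ) (f j) := by rw [h1, h2]
    _ = _ := by
        rw [← Finset.sum_add_distrib, ← Finset.sum_add_distrib]
        refine Finset.sum_congr rfl fun j _ => ?_
        ring

/-- an eigenvalue outside the bands has no eigenvector -/
theorem o7_eig (w : ℤ → ℝ) (E : ℝ) (c p L : ℕ) (hN : N = p * L) (hw : ∀ k, w (k + p) = w k)
    (ht : 2 < |(Pr w E 0 p).trace|) (f : EuclideanSpace ℂ (ZMod N))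
    (hf : o7_T N (o7_wN N w c) f = (E : ℂ) • f) : f = 0 := by
  set v : ℤ → ℂ := fun k => f ((k + c : ℤ) : ZMod N) with hvdef
  have hv : ∀ k, v (k + 1) + v (k - 1) + (w k : ℂ) * v k = (E : ℂ) * v k := by
    intro k
    have h1 := congrArg (fun F : EuclideanSpace ℂ (ZMod N) => F ((k + c : ℤ) : ZMod N)) hf
    simp only [o7_T_apply, PiLp.smul_apply, smul_eq_mul] at h1
    rw [o7_wN_cast N w c p L hN hw k] at h1
    have e1 : ((k + 1 + c : ℤ) : ZMod N) = ((k + c : ℤ) : ZMod N) + 1 := by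
      push_cast
      ring
    have e2 : ((k - 1 + c : ℤ) : ZMod N) = ((k + c : ℤ) : ZMod N) - 1 := by
      push_cast
      ring
    simp only [hvdef, e1, e2]
    exact h1
  have h0 : v 0 = 0 := by
    have := o7_max (fun j : ZMod N => f j) (fun m : ℤ => ((m * p + c : ℤ) : ZMod N)) _ ht
      (fun m => (o7_three w E p hw v hv m).2) 0
    simpa [hvdef] using this
  have h1 : v 1 = 0 := by
    have := o7_max (fun j : ZMod N => f j) (fun m : ℤ => ((m * p + 1 + c : ℤ) : ZMod N)) _ ht
      (fun m => (o7_three w E p hw v hv m).1) 0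
    simpa [hvdef] using this
  have hall : ∀ n : ℕ, v n = 0 ∧ v (n + 1) = 0 := by
    intro n
    induction n with
    | zero => exact ⟨by simpa using h0, by simpa using h1⟩
    | succ n ih =>
      obtain ⟨i1, i2⟩ := ih
      refine ⟨by push_cast; exact i2, ?_⟩
      have h3 := hv (n + 1)
      have e1 : ((n : ℤ) + 1 - 1) = n := by ring
      rw [e1, i1, i2] at h3
      push_cast
      linear_combination h3
  ext j
  have hk : 0 ≤ (j.val : ℤ) - c + N * c := by
    have hN1 : 1 ≤ N := Nat.one_le_iff_ne_zero.2 (NeZero.ne N)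
    have : (c : ℤ) ≤ N * c := by
      have : c ≤ N * c := Nat.le_mul_of_pos_left c hN1
      exact_mod_cast this
    have h2 : (0 : ℤ) ≤ j.val := Int.natCast_nonneg _
    linarith
  have h5 := (hall ((j.val : ℤ) - c + N * c).toNat).1
  rw [Int.toNat_of_nonneg hk] at h5
  simp only [hvdef] at h5
  have h6 : (((j.val : ℤ) - c + N * c + c : ℤ) : ZMod N) = j := by
    push_cast
    rw [ZMod.natCast_self]
    simp
  rw [h6] at h5
  simpa using h5

/-- the lower bound on the cycle -/
theorem o7_bound (w : ℤ → ℝ) (E d : ℝ) (c p L : ℕ) (hN : N = p * L) (hd : 0 < d)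
    (hw : ∀ k, w (k + p) = w k)
    (ht : ∀ E' : ℝ, |E' - E| < d → 2 < |(Pr w E' 0 p).trace|) (f : EuclideanSpace ℂ (ZMod N)) :
    d ^ 2 * ‖f‖ ^ 2 ≤ ‖o7_T N (o7_wN N w c) f - (E : ℂ) • f‖ ^ 2 := by
  classical
  have hsym := o7_T_symm N (o7_wN N w c)
  have hn : Module.finrank ℂ (EuclideanSpace ℂ (ZMod N)) = N := by
    rw [finrank_euclideanSpace, ZMod.card]
  set b := hsym.eigenvectorBasis hn with hb
  have hev : ∀ i, d ≤ |hsym.eigenvalues hn i - E| := by
    intro i
    by_contra hlt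
    push Not at hlt
    have h1 := hsym.apply_eigenvectorBasis hn i
    have h2 := o7_eig N w (hsym.eigenvalues hn i) c p L hN hw (ht _ hlt) (b i) h1
    have h3 := b.orthonormal.ne_zero i
    exact h3 h2
  have hpar := fun g : EuclideanSpace ℂ (ZMod N) => b.sum_sq_norm_inner_right g
  rw [← hpar f, ← hpar (o7_T N (o7_wN N w c) f - (E : ℂ) • f), Finset.mul_sum]
  refine Finset.sum_le_sum fun i _ => ?_
  have h4 : inner ℂ (b i) (o7_T N (o7_wN N w c) f - (E : ℂ) • f) =
      ((hsym.eigenvalues hn i - E : ℝ) : ℂ) * inner ℂ (b i) f := by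
    rw [inner_sub_right, inner_smul_right, ← hsym (b i) f, hb, hsym.apply_eigenvectorBasis hn i,
      inner_smul_left]
    push_cast
    simp only [Complex.coe_algebraMap, Complex.conj_ofReal, RCLike.ofReal_eq_complex_ofReal]
    ring
  rw [h4, norm_mul, mul_pow, Complex.norm_real, Real.norm_eq_abs]
  refine mul_le_mul_of_nonneg_right ?_ (sq_nonneg _)
  exact pow_le_pow_left₀ hd.le (hev i) 2

end

theorem st_O7 : ST_O7 := by
  intro p w E d hp hd hw ht u hu
  classical
  obtain ⟨R, hR⟩ : ∃ R : ℕ, ∀ k, u k ≠ 0 → |k| ≤ R := by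
    have hfin : (u.support).Finite := hu
    obtain ⟨R, hR⟩ := (hfin.image (fun k : ℤ => k.natAbs)).bddAbove
    refine ⟨R, fun k hk => ?_⟩
    have h1 : k.natAbs ≤ R := hR ⟨k, hk, rfl⟩
    rw [Int.abs_eq_natAbs]
    exact_mod_cast h1
  set c : ℕ := R + 2 with hc
  set L : ℕ := 2 * R + 5 with hL
  set N : ℕ := p * L with hN
  have hNL : 2 * R + 5 ≤ N := by
    calc 2 * R + 5 = 1 * L := by rw [hL, one_mul]
      _ ≤ p * L := Nat.mul_le_mul_right _ hp
  have : NeZero N := ⟨by omega⟩
  have hu0 : ∀ k : ℤ, (R : ℤ) < |k| → u k = 0 := by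
    intro k hk
    by_contra hne
    have := hR k hne
    omega
  set φ : ZMod N → ℤ := fun j => (j.val : ℤ) - c with hφ
  have hφinj : Function.Injective φ := by
    intro i j hij
    simp only [hφ] at hij
    have : i.val = j.val := by omega
    exact ZMod.val_injective N this
  have hφrange : ∀ k : ℤ, |k| ≤ R + 1 → k ∈ Set.range φ := by
    intro k hk
    rw [abs_le] at hk
    have h1 : 0 ≤ k + c := by rw [hc]; push_cast; linarith
    have h2 : k + c < N := by rw [hc]; push_cast; omega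
    refine ⟨((k + c : ℤ) : ZMod N), ?_⟩
    simp only [hφ]
    rw [ZMod.val_intCast, Int.emod_eq_of_lt h1 h2]
    ring
  have hval_add : ∀ j : ZMod N, u (φ (j + 1)) = u (φ j + 1) := by
    intro j
    have hjlt : j.val < N := ZMod.val_lt j
    by_cases hj : j.val + 1 < N
    · congr 1
      simp only [hφ]
      have h1 : (j + 1).val = j.val + 1 := by
        rw [ZMod.val_add, ZMod.val_one_eq_one_mod, Nat.mod_eq_of_lt (show 1 < N by omega),
          Nat.mod_eq_of_lt hj]
      rw [h1]
      push_cast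
      ring
    · have hj' : j.val + 1 = N := by omega
      have h1 : (j + 1).val = 0 := by
        rw [ZMod.val_add, ZMod.val_one_eq_one_mod, Nat.mod_eq_of_lt (show 1 < N by omega), hj',
          Nat.mod_self]
      rw [hu0 (φ (j + 1)), hu0 (φ j + 1)]
      · simp only [hφ]
        rw [lt_abs]
        left
        omega
      · simp only [hφ]
        rw [lt_abs, h1]
        right
        push_cast
        omega
  have hval_sub : ∀ j : ZMod N, u (φ (j - 1)) = u (φ j - 1) := by
    intro j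
    have hjlt : j.val < N := ZMod.val_lt j
    by_cases hj : 1 ≤ j.val
    · congr 1
      simp only [hφ]
      have h1 : (j - 1).val = j.val - 1 := by
        have h2 : (j - 1 + 1).val = (j - 1).val + 1 := by
          have h3 : (j - 1).val + 1 < N ∨ (j - 1).val + 1 = N := by
            have := ZMod.val_lt (j - 1)
            omega
          rcases h3 with h3 | h3
          · rw [ZMod.val_add, ZMod.val_one_eq_one_mod, Nat.mod_eq_of_lt (show 1 < N by omega),
              Nat.mod_eq_of_lt h3]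
          · exfalso
            have h4 : (j - 1 + 1).val = 0 := by
              rw [ZMod.val_add, ZMod.val_one_eq_one_mod, Nat.mod_eq_of_lt (show 1 < N by omega),
                h3, Nat.mod_self]
            rw [sub_add_cancel] at h4
            omega
        rw [sub_add_cancel] at h2
        omega
      rw [h1]
      push_cast [Nat.cast_sub hj]
      ring
    · have hj' : j = 0 := by
        have : j.val = 0 := by omega
        exact (ZMod.val_eq_zero j).1 this
      have h1 : (j - 1).val + 1 = N := by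
        have h3 : (j - 1).val + 1 < N ∨ (j - 1).val + 1 = N := by
          have := ZMod.val_lt (j - 1)
          omega
        rcases h3 with h3 | h3
        · exfalso
          have h2 : (j - 1 + 1).val = (j - 1).val + 1 := by
            rw [ZMod.val_add, ZMod.val_one_eq_one_mod, Nat.mod_eq_of_lt (show 1 < N by omega),
              Nat.mod_eq_of_lt h3]
          rw [sub_add_cancel, hj', ZMod.val_zero] at h2
          omega
        · exact h3
      have h0 : j.val = 0 := by rw [hj', ZMod.val_zero]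
      rw [hu0 (φ (j - 1)), hu0 (φ j - 1)]
      · simp only [hφ]
        rw [lt_abs, h0]
        right
        push_cast
        omega
      · simp only [hφ]
        rw [lt_abs]
        left
        omega
  set g : ℤ → ℂ := fun k => u (k + 1) + u (k - 1) + ((w k : ℝ) : ℂ) * u k - (E : ℂ) * u k with hg
  have hg0 : ∀ k : ℤ, (R : ℤ) + 1 < |k| → g k = 0 := by
    intro k hk
    have h1 : (R : ℤ) < |k + 1| := by
      rw [lt_abs] at hk ⊢
      omega
    have h2 : (R : ℤ) < |k - 1| := by
      rw [lt_abs] at hk ⊢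
      omega
    simp only [hg]
    rw [hu0 _ h1, hu0 _ h2, hu0 k (by omega)]
    ring
  have hsum : ∀ F : ℤ → ℂ, (∀ k : ℤ, (R : ℤ) + 1 < |k| → F k = 0) →
      ∑' k, ‖F k‖ ^ 2 = ∑ j : ZMod N, ‖F (φ j)‖ ^ 2 := by
    intro F hF
    rw [← tsum_fintype (L := SummationFilter.unconditional _)]
    symm
    refine hφinj.tsum_eq (f := fun k => ‖F k‖ ^ 2) ?_
    intro k hk
    rw [Function.mem_support] at hk
    apply hφrange
    by_contra hlt
    push Not at hlt
    apply hk
    rw [hF k hlt]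
    simp
  rw [hsum u (fun k hk => hu0 k (by omega)), hsum g hg0]
  set f : EuclideanSpace ℂ (ZMod N) := WithLp.toLp 2 (fun j => u (φ j)) with hf
  have hb := o7_bound N w E d c p L hN hd hw ht f
  rw [EuclideanSpace.norm_sq_eq, EuclideanSpace.norm_sq_eq] at hb
  have h1 : ∀ j : ZMod N, (o7_T N (o7_wN N w c) f - (E : ℂ) • f) j = g (φ j) := by
    intro j
    simp only [PiLp.sub_apply, PiLp.smul_apply, smul_eq_mul, o7_T_apply, hf, hg]
    rw [hval_add, hval_sub]
    rfl
  simp only [h1] at hb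
  exact hb

end

end Pool.Agent.Helper36.CV
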